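import Pool.Agent.SQR.Fin

/-!
# Dissecting a square into a prime number of pieces congruent by axis-parallel isometries

Let `p` be an odd prime.  Let the unit square be dissected into `p` pieces `P i = g i A + c i` (regular closed sets with
connected interiors; no hypothesis on the boundaries), where every linear part `g i` is a signed permutation matrix
(an integer matrix with `g i * (g i)ᵀ = 1`), i.e. a symmetry of the square.  Assume that no two of the linear parts
differ by a rotation by a quarter turn (in particular: all pieces are obtained from one of them by translations,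
half turns, and reflections in lines parallel to the sides; or by translations, half turns and reflections in lines
parallel to the diagonals), or, more generally, quarter turns being allowed, that `p` does not divide the determinant
of `∑ i, g i`.  Then the dissection is one of the two strip dissections.
-/

set_option autoImplicit false

namespace Pool.Agent.Results.MP_a5d497_co.AxisParallel

theorem result (p : ℕ) (hp : p.Prime) (hp2 : p ≠ 2) (A : Set (EuclideanSpace ℝ (Fin 2)))
    (g : Fin p → Matrix (Fin 2) (Fin 2) ℤ) (hg : ∀ i, g i * (g i).transpose = 1)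
    (c : Fin p → EuclideanSpace ℝ (Fin 2)) (P : Fin p → Set (EuclideanSpace ℝ (Fin 2)))
    (hP : ∀ i, P i = {x | ∃ a ∈ A, ∀ k, x k = (∑ l, ((g i k l : ℤ) : ℝ) * a l) + c i k})
    (hreg : ∀ i, closure (interior (P i)) = P i)
    (hconn : ∀ i, IsConnected (interior (P i)))
    (hdisj : ∀ i j, i ≠ j → Disjoint (interior (P i)) (interior (P j)))
    (hcov : (⋃ i, P i) = {x : EuclideanSpace ℝ (Fin 2) | ∀ c, 0 ≤ x c ∧ x c ≤ 1})
    (hyp : (∀ i j, ((g i).transpose * g j).transpose = (g i).transpose * g j) ∨
      ¬ (p : ℤ) ∣ (∑ i, g i).det) :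
    ∃ σ : Equiv.Perm (Fin p),
      (∀ k : Fin p, P (σ k) =
        {x : EuclideanSpace ℝ (Fin 2) | (∀ c, 0 ≤ x c ∧ x c ≤ 1) ∧
          ((k : ℕ) : ℝ) / p ≤ x 1 ∧ x 1 ≤ (((k : ℕ) : ℝ) + 1) / p}) ∨
      (∀ k : Fin p, P (σ k) =
        {x : EuclideanSpace ℝ (Fin 2) | (∀ c, 0 ≤ x c ∧ x c ≤ 1) ∧
          ((k : ℕ) : ℝ) / p ≤ x 0 ∧ x 0 ≤ (((k : ℕ) : ℝ) + 1) / p}) :=
  Pool.Agent.SQR.fin_main p hp hp2 A g hg c P hP hreg hconn hdisj hcov hyp

end Pool.Agent.Results.MP_a5d497_co.AxisParallel
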