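import Pool.Agent.SQG.Fin2

/-!
# Dissecting a square into a prime number of congruent pieces: the rotations of finite order

Let `p` be an odd prime.  Let the unit square be dissected into `p` congruent pieces `P i = g i A + c i` (regular closed
sets with connected disjoint interiors, `g i` arbitrary real orthogonal matrices).  Assume that the boundary of `A` is
contained in the union of finitely many lines and of a closed set `C` which meets every line in finitely many points
(for example: `A` is a polygon, or is bounded by finitely many real analytic arcs).  Let `Γ` be the group generated by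
the linear parts `g i * (g j)ᵀ` of the isometries between the pieces (it is closed under inverses, so it is the monoid
generated by them).  Assume that every rotation of finite order in `Γ` satisfies `k ^ 2 = 1`, i.e. is the identity or the
half turn; or, more generally if `p = 3` modulo `4` and no reflections occur, that it satisfies `k ^ 4 = 1`.
Then the dissection is one of the two strip dissections.  (Rotations of infinite order and, for `m = 2`, reflections in
arbitrary lines are allowed.)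
-/

set_option autoImplicit false

namespace Pool.Agent.Results.MP_a5d497_co.FiniteOrderRotations

theorem result (p : ℕ) (hp : p.Prime) (hp2 : p ≠ 2) (A : Set (EuclideanSpace ℝ (Fin 2)))
    (g : Fin p → Matrix (Fin 2) (Fin 2) ℝ) (hg : ∀ i, g i * (g i).transpose = 1)
    (c : Fin p → EuclideanSpace ℝ (Fin 2)) (P : Fin p → Set (EuclideanSpace ℝ (Fin 2)))
    (hP : ∀ i, P i = {x | ∃ a ∈ A, ∀ k, x k = (∑ l, g i k l * a l) + c i k})
    (hreg : ∀ i, closure (interior (P i)) = P i)
    (hconn : ∀ i, IsConnected (interior (P i)))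
    (hdisj : ∀ i j, i ≠ j → Disjoint (interior (P i)) (interior (P j)))
    (hcov : (⋃ i, P i) = {x : EuclideanSpace ℝ (Fin 2) | ∀ c, 0 ≤ x c ∧ x c ≤ 1})
    -- the boundary of `A` lies in `C` and in the lines `α x + β y = γ` for `(α, β, γ)` in the finite set `T`
    (C : Set (EuclideanSpace ℝ (Fin 2))) (hC : IsClosed C)
    (hCl : ∀ l : ℝ × ℝ × ℝ, (l.1 ≠ 0 ∨ l.2.1 ≠ 0) → (C ∩ {x | l.1 * x 0 + l.2.1 * x 1 = l.2.2}).Finite)
    (T : Finset (ℝ × ℝ × ℝ)) (hTn : ∀ l ∈ T, l.1 ≠ 0 ∨ l.2.1 ≠ 0)
    (hfr : frontier A ⊆ C ∪ ⋃ l ∈ T, {x | l.1 * x 0 + l.2.1 * x 1 = l.2.2})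
    -- the group generated by the linear parts
    (Γ : Submonoid (Matrix (Fin 2) (Fin 2) ℝ))
    (hΓ : Γ = Submonoid.closure {m | ∃ i j, m = g i * (g j).transpose})
    (m : ℕ) (hm : m = 2 ∨ (m = 4 ∧ p % 4 = 3 ∧ ∀ i j, (g i).det = (g j).det))
    (hyp : ∀ k ∈ Γ, k.det = 1 → (∃ n : ℕ, 0 < n ∧ k ^ n = 1) → k ^ m = 1) :
    ∃ σ : Equiv.Perm (Fin p),
      (∀ k : Fin p, P (σ k) =
        {x : EuclideanSpace ℝ (Fin 2) | (∀ c, 0 ≤ x c ∧ x c ≤ 1) ∧
          ((k : ℕ) : ℝ) / p ≤ x 1 ∧ x 1 ≤ (((k : ℕ) : ℝ) + 1) / p}) ∨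
      (∀ k : Fin p, P (σ k) =
        {x : EuclideanSpace ℝ (Fin 2) | (∀ c, 0 ≤ x c ∧ x c ≤ 1) ∧
          ((k : ℕ) : ℝ) / p ≤ x 0 ∧ x 0 ≤ (((k : ℕ) : ℝ) + 1) / p}) :=
  Pool.Agent.SQG.fin_a p hp hp2 A g hg c P hP hreg hconn hdisj hcov C hC hCl T hTn hfr Γ hΓ m hm hyp

end Pool.Agent.Results.MP_a5d497_co.FiniteOrderRotations
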